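import Mathlib
import Pool.Agent.H221R3.MD.Stmts

set_option autoImplicit false

namespace Pool.Agent.Helper25R3.MD

open Finset Pool.Agent.H221R3.MD

theorem total {q n : ℕ} {D : Fin q → Fin q → ℕ} {K : Fin q → Fin q → ℝ} {C : ℝ}
    (hK : PosK q D K C) :
    ∑ a : Fin n → Fin q, ∑ b : Fin n → Fin q, ∏ k, K (a k) (b k) = C ^ n := by
  have h1 : ∀ a : Fin n → Fin q,
      ∑ b : Fin n → Fin q, ∏ k, K (a k) (b k) = ∏ k, ∑ v, K (a k) v := by
    intro a
    rw [Finset.prod_univ_sum]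
    simp
  have h2 : ∑ a : Fin n → Fin q, ∏ k, ∑ v, K (a k) v = ∏ _k : Fin n, ∑ u, ∑ v, K u v := by
    rw [Finset.prod_univ_sum]
    simp
  rw [Finset.sum_congr rfl fun a _ => h1 a, h2, hK.2.2.2.1, Finset.prod_const, Finset.card_univ,
    Fintype.card_fin]

theorem taskD : TaskD := by
  intro hA hB hC q n D K C R hK hR hn hD S hS t ht
  have hw : ∀ a b : Fin n → Fin q, 0 ≤ ∏ k, K (a k) (b k) := fun a b =>
    Finset.prod_nonneg fun k _ => hK.1 _ _
  have htot := total (n := n) hK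
  set Y : Finset ((Fin n → Fin q) → ℤ) :=
    Fintype.piFinset (fun s => if s ∈ S then Finset.Icc (-(t : ℤ)) t else {0}) with hY
  have hYcard : Y.card = (2 * t + 1) ^ S.card := by
    rw [hY, Fintype.card_piFinset]
    have : ∀ s : Fin n → Fin q, (if s ∈ S then Finset.Icc (-(t : ℤ)) t else {0}).card =
        if s ∈ S then 2 * t + 1 else 1 := by
      intro s
      split_ifs
      · rw [Int.card_Icc]; omega
      · simp
    rw [Finset.prod_congr rfl fun s _ => this s, Finset.prod_ite_mem, Finset.univ_inter,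
      Finset.prod_const]
  have hpt : ∀ a b : Fin n → Fin q,
      (1 : ℝ) ≤ (∑ s ∈ S, (if (t : ℝ) < |(ms D a b s : ℝ)| then (1 : ℝ) else 0)) +
        ∑ y ∈ Y, (if ∀ s ∈ S, ms D a b s = y s then (1 : ℝ) else 0) := by
    intro a b
    have hn1 : ∀ s ∈ S, (0 : ℝ) ≤ (if (t : ℝ) < |(ms D a b s : ℝ)| then (1 : ℝ) else 0) := by
      intro s _; split_ifs <;> norm_num
    have hn2 : ∀ y ∈ Y, (0 : ℝ) ≤ (if ∀ s ∈ S, ms D a b s = y s then (1 : ℝ) else 0) := by
      intro y _; split_ifs <;> norm_num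
    by_cases h : ∃ s ∈ S, (t : ℝ) < |(ms D a b s : ℝ)|
    · obtain ⟨s, hs, hlt⟩ := h
      have h1 := Finset.single_le_sum hn1 hs
      rw [if_pos hlt] at h1
      have h2 := Finset.sum_nonneg hn2
      linarith
    · push Not at h
      set y : (Fin n → Fin q) → ℤ := fun s => if s ∈ S then ms D a b s else 0 with hy
      have hyY : y ∈ Y := by
        rw [hY, Fintype.mem_piFinset]
        intro s
        by_cases hs : s ∈ S
        · rw [if_pos hs, hy]
          simp only [if_pos hs]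
          rw [Finset.mem_Icc]
          have h3 := h s hs
          have h4 : |ms D a b s| ≤ (t : ℤ) := by exact_mod_cast h3
          exact abs_le.1 h4
        · rw [if_neg hs, hy]
          simp [if_neg hs]
      have h1 := Finset.single_le_sum hn2 hyY
      rw [if_pos (by intro s hs; rw [hy]; simp only [if_pos hs])] at h1
      have h2 := Finset.sum_nonneg hn1
      linarith
  have hmain : C ^ n ≤ (∑ s ∈ S, ∑ a : Fin n → Fin q, ∑ b : Fin n → Fin q,
        (∏ k, K (a k) (b k)) * (if (t : ℝ) < |(ms D a b s : ℝ)| then (1 : ℝ) else 0)) +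
      ∑ y ∈ Y, ∑ a : Fin n → Fin q, ∑ b : Fin n → Fin q,
        (∏ k, K (a k) (b k)) * (if ∀ s ∈ S, ms D a b s = y s then (1 : ℝ) else 0) := by
    have e1 : (∑ s ∈ S, ∑ a : Fin n → Fin q, ∑ b : Fin n → Fin q,
        (∏ k, K (a k) (b k)) * (if (t : ℝ) < |(ms D a b s : ℝ)| then (1 : ℝ) else 0)) =
        ∑ a : Fin n → Fin q, ∑ b : Fin n → Fin q, (∏ k, K (a k) (b k)) *
          ∑ s ∈ S, (if (t : ℝ) < |(ms D a b s : ℝ)| then (1 : ℝ) else 0) := by
      rw [Finset.sum_comm]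
      refine Finset.sum_congr rfl fun a _ => ?_
      rw [Finset.sum_comm]
      refine Finset.sum_congr rfl fun b _ => ?_
      rw [Finset.mul_sum]
    have e2 : (∑ y ∈ Y, ∑ a : Fin n → Fin q, ∑ b : Fin n → Fin q,
        (∏ k, K (a k) (b k)) * (if ∀ s ∈ S, ms D a b s = y s then (1 : ℝ) else 0)) =
        ∑ a : Fin n → Fin q, ∑ b : Fin n → Fin q, (∏ k, K (a k) (b k)) *
          ∑ y ∈ Y, (if ∀ s ∈ S, ms D a b s = y s then (1 : ℝ) else 0) := by
      rw [Finset.sum_comm]
      refine Finset.sum_congr rfl fun a _ => ?_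
      rw [Finset.sum_comm]
      refine Finset.sum_congr rfl fun b _ => ?_
      rw [Finset.mul_sum]
    rw [e1, e2, ← htot, ← Finset.sum_add_distrib]
    refine Finset.sum_le_sum fun a _ => ?_
    rw [← Finset.sum_add_distrib]
    refine Finset.sum_le_sum fun b _ => ?_
    rw [← mul_add]
    calc (∏ k, K (a k) (b k)) = (∏ k, K (a k) (b k)) * 1 := (mul_one _).symm
      _ ≤ _ := mul_le_mul_of_nonneg_left (hpt a b) (hw a b)
  have hfirst : (∑ s ∈ S, ∑ a : Fin n → Fin q, ∑ b : Fin n → Fin q,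
        (∏ k, K (a k) (b k)) * (if (t : ℝ) < |(ms D a b s : ℝ)| then (1 : ℝ) else 0)) ≤
      S.card * (2 * Real.exp (-((t : ℝ) ^ 2) / (2 * n * R ^ 2)) * C ^ n) := by
    refine (Finset.sum_le_card_nsmul S _ _ fun s _ =>
      hC q n D K C R hK hR hn hD s t (Nat.cast_nonneg t)).trans ?_
    rw [nsmul_eq_mul]
  have hsecond : (∑ y ∈ Y, ∑ a : Fin n → Fin q, ∑ b : Fin n → Fin q,
        (∏ k, K (a k) (b k)) * (if ∀ s ∈ S, ms D a b s = y s then (1 : ℝ) else 0)) ≤
      (2 * (t : ℝ) + 1) ^ S.card := by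
    refine (Finset.sum_le_card_nsmul Y _ _ fun y _ =>
      hB hA q n D K C hK S hS y).trans ?_
    rw [nsmul_eq_mul, mul_one, hYcard]
    push_cast
    exact le_rfl
  have hC0 : 0 ≤ C ^ n := by
    rw [← htot]
    exact Finset.sum_nonneg fun a _ => Finset.sum_nonneg fun b _ => hw a b
  have hhalf : (S.card : ℝ) * (2 * Real.exp (-((t : ℝ) ^ 2) / (2 * n * R ^ 2)) * C ^ n) ≤
      C ^ n / 2 := by
    have := mul_le_mul_of_nonneg_right ht hC0
    nlinarith
  linarith

end Pool.Agent.Helper25R3.MD
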