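import Pool.Agent.Helper849.TA.Stmts
import Pool.Agent.H552R3.Tsen.Zero

set_option autoImplicit false

namespace Pool.Agent.Helper25R3.TiltP

open MvPolynomial

/-- TASK P: fewer weighted forms than variables have a nontrivial common zero. -/
theorem taskP : Pool.Agent.Helper849.TA.TaskP := by
  intro F _ _ σ _ w hw s hs g d hd hg
  obtain ⟨v, hv0, hv⟩ := Pool.Agent.H552R3.Tsen.exists_common_zero g (fun i => by
    have h0 : eval (0 : σ → F) (g i) = coeff 0 (g i) := by
      rw [MvPolynomial.eval_zero, constantCoeff_eq]
    rw [h0]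
    by_contra h1
    have h2 := hg i h1
    rw [map_zero] at h2
    have := hd i
    omega) (by simpa using hs)
  exact ⟨v, hv0, hv⟩

end Pool.Agent.Helper25R3.TiltP
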